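import Mathlib

set_option autoImplicit false

namespace Pool.Agent.Results.MP_81fdd0_co.InfiniteQuotientClique

open FreeGroup

variable {α : Type} [DecidableEq α]

/-- `w` properly overlaps `w'`: some nonempty word `x`, shorter than both reduced words, is a
suffix of the reduced word of `w` and an initial segment of the reduced word of `w'`. -/
def ProperlyOverlaps (w w' : FreeGroup α) : Prop :=
  ∃ x : List (α × Bool), x ≠ [] ∧ x <:+ w.toWord ∧ x <+: w'.toWord ∧
    x.length < w.toWord.length ∧ x.length < w'.toWord.length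

/-- `w ≠ 1` and no nonempty word is both a proper initial segment and a proper suffix of the
reduced word of `w`. -/
def NonSelfOverlapping (w : FreeGroup α) : Prop :=
  w ≠ 1 ∧ ¬ ∃ x : List (α × Bool), x ≠ [] ∧ x <+: w.toWord ∧ x <:+ w.toWord ∧
    x.length < w.toWord.length

/-- The underlying undirected graph of the overlap graph `OG(V)`. -/
def OG (V : Set (FreeGroup α)) : SimpleGraph V :=
  SimpleGraph.fromRel (fun a b : V => ProperlyOverlaps (a : FreeGroup α) (b : FreeGroup α))

/-- The vertices of the quotient graph: the pairs `{w, w⁻¹}` with `w ∈ V`. -/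
def Pairs (V : Set (FreeGroup α)) : Type :=
  {p : Set (FreeGroup α) // ∃ w ∈ V, p = {w, w⁻¹}}

/-- The quotient of the overlap graph obtained by identifying each `w` with `w⁻¹`. -/
def OGbar (V : Set (FreeGroup α)) : SimpleGraph (Pairs V) :=
  SimpleGraph.fromRel (fun p q : Pairs V => ∃ a ∈ p.1, ∃ b ∈ q.1, ProperlyOverlaps a b)

/-- The clique number in `ℕ ∪ {∞}`: the supremum of the sizes of the finite complete subgraphs. -/
noncomputable def cliqueSup {W : Type} (G : SimpleGraph W) : ℕ∞ :=
  ⨆ s : {s : Finset W // G.IsClique (s : Set W)}, ((s : Finset W).card : ℕ∞)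

section words

variable (a b : α)

/-- The auxiliary words `r 0 = b`, `r (n+1) = (r n)⁻¹ a (r n)`. -/
def r : ℕ → List (α × Bool)
  | 0 => [(b, true)]
  | n + 1 => invRev (r n) ++ (a, true) :: r n

/-- Consecutive letters come from different generators. -/
def Alt (L : List (α × Bool)) : Prop := L.IsChain (fun x y => x.1 ≠ y.1)

omit [DecidableEq α] in
theorem alt_invRev {L : List (α × Bool)} (h : Alt L) : Alt (invRev L) := by
  unfold Alt at *
  unfold FreeGroup.invRev
  rw [List.isChain_reverse, List.isChain_map]
  refine h.imp ?_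
  intro x y hxy
  exact fun h => hxy h.symm

omit [DecidableEq α] in
theorem r_last (n : ℕ) : ∃ L, r a b n = L ++ [(b, true)] := by
  induction n with
  | zero => exact ⟨[], rfl⟩
  | succ n ih =>
    obtain ⟨L, hL⟩ := ih
    refine ⟨invRev (r a b n) ++ (a, true) :: L, ?_⟩
    show invRev (r a b n) ++ (a, true) :: r a b n = _
    conv_lhs => rw [hL]
    rw [hL]
    simp

omit [DecidableEq α] in
theorem r_succ_head (n : ℕ) : ∃ L, r a b (n + 1) = (b, false) :: L := by
  obtain ⟨L, hL⟩ := r_last a b n
  refine ⟨invRev L ++ (a, true) :: r a b n, ?_⟩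
  show invRev (r a b n) ++ (a, true) :: r a b n = _
  conv_lhs => rw [show invRev (r a b n) = (b, false) :: invRev L by
    rw [hL, invRev_append]; rfl]
  rfl

omit [DecidableEq α] in
theorem r_alt (hab : a ≠ b) (n : ℕ) : Alt (r a b n) ∧ ∀ x ∈ (r a b n).head?, x.1 = b := by
  induction n with
  | zero => exact ⟨List.isChain_singleton _, by simp [r]⟩
  | succ n ih =>
    obtain ⟨h1, h2⟩ := ih
    have h3 : Alt ((a, true) :: r a b n) := by
      unfold Alt at *
      rw [List.isChain_cons]
      refine ⟨?_, h1⟩
      intro y hy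
      rw [h2 y hy]
      exact hab
    refine ⟨?_, ?_⟩
    · show Alt (invRev (r a b n) ++ (a, true) :: r a b n)
      unfold Alt
      rw [List.isChain_append]
      refine ⟨alt_invRev h1, h3, ?_⟩
      intro x hx y hy
      simp only [List.head?_cons, Option.mem_def, Option.some.injEq] at hy
      subst hy
      have hx' : x.1 = b := by
        unfold FreeGroup.invRev at hx
        rw [List.getLast?_reverse, List.head?_map] at hx
        simp only [Option.mem_def, Option.map_eq_some_iff] at hx
        obtain ⟨z, hz, rfl⟩ := hx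
        exact h2 z hz
      rw [hx']
      exact fun h => hab h.symm
    · obtain ⟨L, hL⟩ := r_succ_head a b n
      rw [hL]
      simp

omit [DecidableEq α] in
theorem r_suffix_succ (n : ℕ) : r a b n <:+ r a b (n + 1) := by
  refine ⟨invRev (r a b n) ++ [(a, true)], ?_⟩
  show _ = invRev (r a b n) ++ (a, true) :: r a b n
  simp

omit [DecidableEq α] in
theorem r_suffix {m n : ℕ} (h : m ≤ n) : r a b m <:+ r a b n := by
  induction h with
  | refl => exact List.suffix_refl _
  | step _ ih => exact ih.trans (r_suffix_succ a b _)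

omit [DecidableEq α] in
theorem r_length_lt (n : ℕ) : (r a b n).length < (r a b (n + 1)).length := by
  show _ < (invRev (r a b n) ++ (a, true) :: r a b n).length
  simp only [List.length_append, List.length_cons]
  omega

omit [DecidableEq α] in
theorem r_length_strictMono : StrictMono (fun n => (r a b n).length) :=
  strictMono_nat_of_lt_succ (r_length_lt a b)

/-- The word `a a (r (n+1))⁻¹`. -/
def wordList (n : ℕ) : List (α × Bool) :=
  (a, true) :: (a, true) :: invRev (r a b (n + 1))

omit [DecidableEq α] in
theorem wordList_reduced (hab : a ≠ b) (n : ℕ) : IsReduced (wordList a b n) := by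
  unfold wordList
  rw [FreeGroup.isReduced_cons_cons]
  refine ⟨fun _ => rfl, ?_⟩
  have h1 : Alt (invRev (r a b (n + 1))) := alt_invRev (r_alt a b hab _).1
  obtain ⟨L, hL⟩ := r_last a b (n + 1)
  have h2 : invRev (r a b (n + 1)) = (b, false) :: invRev L := by
    rw [hL, invRev_append]; rfl
  rw [h2] at h1 ⊢
  rw [FreeGroup.isReduced_cons_cons]
  refine ⟨fun h => absurd h hab, ?_⟩
  unfold FreeGroup.IsReduced
  exact List.IsChain.imp (fun x y hxy h => absurd h hxy) h1

end words

theorem overlaps_inv {w w' : FreeGroup α} (h : ProperlyOverlaps w w') :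
    ProperlyOverlaps w'⁻¹ w⁻¹ := by
  obtain ⟨x, hx, h1, h2, h3, h4⟩ := h
  refine ⟨invRev x, ?_, ?_, ?_, ?_, ?_⟩
  · intro h0
    apply hx
    have := congrArg List.length h0
    simpa using this
  · rw [toWord_inv]
    unfold FreeGroup.invRev
    rw [List.reverse_suffix]
    exact h2.map _
  · rw [toWord_inv]
    unfold FreeGroup.invRev
    rw [List.reverse_prefix]
    exact h1.map _
  · simpa [toWord_inv] using h4
  · simpa [toWord_inv] using h3

section main

variable (a b : α)

/-- The group element `a a (r (n+1))⁻¹`. -/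
def w (n : ℕ) : FreeGroup α := FreeGroup.mk (wordList a b n)

theorem toWord_w (hab : a ≠ b) (n : ℕ) : (w a b n).toWord = wordList a b n := by
  unfold w
  rw [toWord_mk]
  exact (wordList_reduced a b hab n).reduce_eq

theorem toWord_w_inv (hab : a ≠ b) (n : ℕ) :
    ((w a b n)⁻¹).toWord = r a b (n + 1) ++ [(a, false), (a, false)] := by
  rw [toWord_inv, toWord_w a b hab]
  unfold wordList
  rw [show ((a, true) :: (a, true) :: invRev (r a b (n + 1)))
    = [(a, true), (a, true)] ++ invRev (r a b (n + 1)) from rfl, invRev_append, invRev_invRev]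
  rfl

theorem length_w (hab : a ≠ b) (n : ℕ) :
    (w a b n).toWord.length = (r a b (n + 1)).length + 2 := by
  rw [toWord_w a b hab]
  simp [wordList]

theorem length_w_inv (hab : a ≠ b) (n : ℕ) :
    ((w a b n)⁻¹).toWord.length = (r a b (n + 1)).length + 2 := by
  rw [toWord_w_inv a b hab]
  simp

/-- `w i` never properly overlaps `w j`. -/
theorem not_overlap_ww (hab : a ≠ b) (i j : ℕ) : ¬ ProperlyOverlaps (w a b i) (w a b j) := by
  rintro ⟨x, hx, h1, h2, h3, h4⟩
  rw [toWord_w a b hab] at h1 h2 h3 h4
  have hAlt : Alt (invRev (r a b (i + 1))) := alt_invRev (r_alt a b hab _).1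
  obtain ⟨L, hL⟩ := r_last a b (i + 1)
  obtain ⟨M, hM⟩ := r_succ_head a b i
  have hhead : invRev (r a b (i + 1)) = (b, false) :: invRev L := by
    rw [hL, invRev_append]; rfl
  have hlast : invRev (r a b (i + 1)) = invRev M ++ [(b, true)] := by
    rw [hM, invRev_cons]; rfl
  unfold wordList at h1 h2 h3 h4
  cases x with
  | nil => exact hx rfl
  | cons c t =>
    rw [List.cons_prefix_cons] at h2
    obtain ⟨rfl, h2⟩ := h2
    cases t with
    | nil =>
      rw [hlast] at h1
      obtain ⟨s, hs⟩ := h1
      have h5 : s ++ [(a, true)] = ((a, true) :: (a, true) :: invRev M) ++ [(b, true)] := by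
        rw [hs]; rfl
      have h6 := (List.append_inj' h5 rfl).2
      have h7 : a = b := by simpa using h6
      exact hab h7
    | cons d t =>
      rw [List.cons_prefix_cons] at h2
      obtain ⟨rfl, h2⟩ := h2
      rw [List.suffix_cons_iff] at h1
      rcases h1 with h1 | h1
      · rw [h1] at h3
        exact absurd h3 (lt_irrefl _)
      · rw [List.suffix_cons_iff] at h1
        rcases h1 with h1 | h1
        · rw [hhead] at h1
          have h5 : ((a, true) : α × Bool) = (b, false) := by
            have := (List.cons_eq_cons.1 h1).2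
            exact (List.cons_eq_cons.1 this).1
          exact hab (by simpa using congrArg Prod.fst h5)
        · have h5 : Alt ((a, true) :: (a, true) :: t) := List.IsChain.suffix hAlt h1
          unfold Alt at h5
          rw [List.isChain_cons_cons] at h5
          exact h5.1 rfl

/-- `(w i)⁻¹` never properly overlaps `w j`. -/
theorem not_overlap_inv_w (hab : a ≠ b) (i j : ℕ) :
    ¬ ProperlyOverlaps (w a b i)⁻¹ (w a b j) := by
  rintro ⟨x, hx, h1, h2, h3, h4⟩
  rw [toWord_w_inv a b hab] at h1
  rw [toWord_w a b hab] at h2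
  unfold wordList at h2
  have hAlt : Alt (r a b (i + 1)) := (r_alt a b hab _).1
  obtain ⟨L, hL⟩ := r_last a b (i + 1)
  have hchain : (r a b (i + 1) ++ [(a, false), (a, false)]).IsChain
      (fun x y : α × Bool => x.1 ≠ y.1 ∨ (x = (a, false) ∧ y = (a, false))) := by
    rw [List.isChain_append]
    refine ⟨hAlt.imp (fun _ _ h => Or.inl h), ?_, ?_⟩
    · simp
    · intro x hx y hy
      rw [hL] at hx
      simp only [List.getLast?_append, List.getLast?_singleton, Option.some_or, Option.mem_def,
        Option.some.injEq] at hx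
      simp only [List.head?_cons, Option.mem_def, Option.some.injEq] at hy
      subst hx
      subst hy
      left
      exact fun h => hab h.symm
  cases x with
  | nil => exact hx rfl
  | cons c t =>
    rw [List.cons_prefix_cons] at h2
    obtain ⟨rfl, h2⟩ := h2
    cases t with
    | nil =>
      obtain ⟨s, hs⟩ := h1
      have h5 : s ++ [(a, true)] = (r a b (i + 1) ++ [(a, false)]) ++ [(a, false)] := by
        rw [hs]; simp
      have h6 := (List.append_inj' h5 rfl).2
      simp at h6
    | cons d t =>
      rw [List.cons_prefix_cons] at h2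
      obtain ⟨rfl, h2⟩ := h2
      have h5 := List.IsChain.suffix hchain h1
      rw [List.isChain_cons_cons] at h5
      rcases h5.1 with h6 | h6
      · exact h6 rfl
      · simp at h6

/-- `w i` properly overlaps `(w j)⁻¹` for `i < j`. -/
theorem overlap_w_inv (hab : a ≠ b) {i j : ℕ} (hij : i < j) :
    ProperlyOverlaps (w a b i) (w a b j)⁻¹ := by
  refine ⟨invRev (r a b (i + 1)), ?_, ?_, ?_, ?_, ?_⟩
  · obtain ⟨L, hL⟩ := r_last a b (i + 1)
    rw [hL, invRev_append]
    simp [FreeGroup.invRev]
  · rw [toWord_w a b hab]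
    exact ⟨[(a, true), (a, true)], rfl⟩
  · rw [toWord_w_inv a b hab]
    have h1 : r a b (i + 1) <:+ r a b j := r_suffix a b hij
    have h2 : invRev (r a b (i + 1)) <+: invRev (r a b j) := by
      unfold FreeGroup.invRev
      rw [List.reverse_prefix]
      exact h1.map _
    refine h2.trans ⟨(a, true) :: r a b j ++ [(a, false), (a, false)], ?_⟩
    show _ = (invRev (r a b j) ++ (a, true) :: r a b j) ++ _
    simp
  · rw [length_w a b hab, invRev_length]
    omega
  · rw [length_w_inv a b hab, invRev_length]
    have := (r_length_strictMono a b).monotone (show i + 1 ≤ j + 1 by omega)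
    omega

/-- The symmetric set of words of the construction. -/
def V : Set (FreeGroup α) := {g | ∃ n, g = w a b n ∨ g = (w a b n)⁻¹}

theorem nonSelf_iff (g : FreeGroup α) (hg : g ≠ 1) :
    NonSelfOverlapping g ↔ ¬ ProperlyOverlaps g g := by
  unfold NonSelfOverlapping ProperlyOverlaps
  constructor
  · rintro ⟨-, h⟩ ⟨x, hx, h1, h2, h3, -⟩
    exact h ⟨x, hx, h2, h1, h3⟩
  · intro h
    refine ⟨hg, ?_⟩
    rintro ⟨x, hx, h1, h2, h3⟩
    exact h ⟨x, hx, h2, h1, h3, h3⟩

theorem ne_one_of_length {g : FreeGroup α} (h : 0 < g.toWord.length) : g ≠ 1 := by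
  rintro rfl
  simp at h

theorem w_ne_one (hab : a ≠ b) (n : ℕ) : w a b n ≠ 1 :=
  ne_one_of_length (by rw [length_w a b hab]; omega)

theorem length_lt (hab : a ≠ b) {i j : ℕ} (hij : i < j) :
    (w a b i).toWord.length < (w a b j).toWord.length := by
  rw [length_w a b hab, length_w a b hab]
  have := (r_length_strictMono a b) (show i + 1 < j + 1 by omega)
  simp only at this
  omega

/-- The `n`-th vertex `{w n, (w n)⁻¹}` of the quotient graph. -/
def pairAt (n : ℕ) : Pairs (V a b) := ⟨{w a b n, (w a b n)⁻¹}, w a b n, ⟨n, Or.inl rfl⟩, rfl⟩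

theorem pairAt_ne (hab : a ≠ b) {i j : ℕ} (hij : i < j) : pairAt a b i ≠ pairAt a b j := by
  intro h
  have h1 : w a b j ∈ (pairAt a b i).1 := by
    rw [h]
    exact Or.inl rfl
  have h2 := length_lt a b hab hij
  rcases h1 with h1 | h1
  · rw [h1] at h2
    exact absurd h2 (lt_irrefl _)
  · rw [h1, toWord_inv, invRev_length] at h2
    exact absurd h2 (lt_irrefl _)

theorem pair_adj (hab : a ≠ b) {i j : ℕ} (hij : i ≠ j) :
    (OGbar (V a b)).Adj (pairAt a b i) (pairAt a b j) := by
  have key : ∀ i j : ℕ, i < j → (OGbar (V a b)).Adj (pairAt a b i) (pairAt a b j) := by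
    intro i j h
    unfold OGbar
    rw [SimpleGraph.fromRel_adj]
    refine ⟨pairAt_ne a b hab h, Or.inl ⟨w a b i, Or.inl rfl, (w a b j)⁻¹, Or.inr rfl, ?_⟩⟩
    exact overlap_w_inv a b hab h
  rcases Nat.lt_or_gt_of_ne hij with h | h
  · exact key i j h
  · exact (key j i h).symm

open Classical in
/-- The two classes `{w n}` and `{(w n)⁻¹}` properly colour the overlap graph. -/
noncomputable def coloring (hab : a ≠ b) : (OG (V a b)).Coloring Bool :=
  SimpleGraph.Coloring.mk (fun g : V a b => decide (∃ n, (g : FreeGroup α) = w a b n)) (by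
    rintro ⟨g, hg⟩ ⟨h, hh⟩ hadj heq
    unfold OG at hadj
    rw [SimpleGraph.fromRel_adj] at hadj
    simp only at heq hadj
    by_cases h1 : ∃ n, g = w a b n
    · have h2 : ∃ n, h = w a b n := by
        by_contra h2
        rw [decide_eq_true h1, decide_eq_false h2] at heq
        exact absurd heq (by simp)
      obtain ⟨i, rfl⟩ := h1
      obtain ⟨j, rfl⟩ := h2
      rcases hadj.2 with h3 | h3
      · exact not_overlap_ww a b hab _ _ h3
      · exact not_overlap_ww a b hab _ _ h3
    · have h2 : ¬ ∃ n, h = w a b n := by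
        intro h2
        rw [decide_eq_false h1, decide_eq_true h2] at heq
        exact absurd heq (by simp)
      obtain ⟨i, hi⟩ := hg
      obtain ⟨j, hj⟩ := hh
      have hi' : g = (w a b i)⁻¹ := hi.resolve_left (fun h => h1 ⟨i, h⟩)
      have hj' : h = (w a b j)⁻¹ := hj.resolve_left (fun h => h2 ⟨j, h⟩)
      subst hi'
      subst hj'
      rcases hadj.2 with h3 | h3
      · have := overlaps_inv h3
        rw [inv_inv, inv_inv] at this
        exact not_overlap_ww a b hab _ _ this
      · have := overlaps_inv h3
        rw [inv_inv, inv_inv] at this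
        exact not_overlap_ww a b hab _ _ this)

end main

/-- Negative answer to Q1, for every rank `r ≥ 2`: there is a symmetric set `V` of
non-self-overlapping reduced words over the standard basis of the free group of rank `r` such that
the overlap graph `OG(V)` has clique number at most `2`, while its quotient by inversion has
infinite clique number. -/
theorem result : ∀ r : ℕ, 2 ≤ r → ∃ V : Set (FreeGroup (Fin r)),
    (∀ w ∈ V, w⁻¹ ∈ V) ∧ (∀ w ∈ V, NonSelfOverlapping w) ∧
      cliqueSup (OG V) ≤ 2 ∧ cliqueSup (OGbar V) = ⊤ := by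
  intro r hr
  have hab : (⟨0, by omega⟩ : Fin r) ≠ ⟨1, by omega⟩ := by
    simp
  set a : Fin r := ⟨0, by omega⟩ with ha
  set b : Fin r := ⟨1, by omega⟩ with hb
  refine ⟨V a b, ?_, ?_, ?_, ?_⟩
  · rintro g ⟨n, rfl | rfl⟩
    · exact ⟨n, Or.inr rfl⟩
    · exact ⟨n, Or.inl (inv_inv _)⟩
  · rintro g ⟨n, rfl | rfl⟩
    · rw [nonSelf_iff _ (w_ne_one a b hab n)]
      exact not_overlap_ww a b hab n n
    · rw [nonSelf_iff _ (inv_ne_one.2 (w_ne_one a b hab n))]
      intro h
      have := overlaps_inv h
      rw [inv_inv] at this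
      exact not_overlap_ww a b hab n n this
  · unfold cliqueSup
    refine iSup_le ?_
    rintro ⟨s, hs⟩
    have h1 : s.card ≤ Fintype.card Bool := hs.card_le_of_coloring (coloring a b hab)
    simp only [Fintype.card_bool] at h1
    exact_mod_cast h1
  · unfold cliqueSup
    rw [iSup_eq_top]
    intro N hN
    obtain ⟨m, rfl⟩ := ENat.ne_top_iff_exists.1 hN.ne
    have hinj : Function.Injective (pairAt a b) := by
      intro i j h
      by_contra hij
      rcases Nat.lt_or_gt_of_ne hij with h' | h'
      · exact pairAt_ne a b hab h' h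
      · exact pairAt_ne a b hab h' h.symm
    refine ⟨⟨(Finset.range (m + 1)).map ⟨pairAt a b, hinj⟩, ?_⟩, ?_⟩
    · intro p hp q hq hpq
      simp only [Finset.coe_map, Function.Embedding.coeFn_mk, Set.mem_image, Finset.coe_range,
        Set.mem_Iio] at hp hq
      obtain ⟨i, -, rfl⟩ := hp
      obtain ⟨j, -, rfl⟩ := hq
      exact pair_adj a b hab (fun h => hpq (by rw [h]))
    · simp only [Finset.card_map, Finset.card_range]
      exact_mod_cast Nat.lt_succ_self m

end Pool.Agent.Results.MP_81fdd0_co.InfiniteQuotientClique
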